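import Pool.Agent.NH34.Lin.Defs

/-!
# Properties of small subgroups
-/

universe w

namespace Pool.Agent.NH34.Lin

section Small

variable {Γ : Type w} [Group Γ] {P Q : Γ → Prop}

lemma ForSmall.and (hP : ForSmall P) (hQ : ForSmall Q) : ForSmall fun g => P g ∧ Q g := by
  obtain ⟨Δ, hΔ, h⟩ := hP
  obtain ⟨Δ', hΔ', h'⟩ := hQ
  exact ⟨Δ ⊓ Δ', inferInstance, fun g hg => ⟨h g hg.1, h' g hg.2⟩⟩

lemma ForSmall.mono (hP : ForSmall P) (h : ∀ g, P g → Q g) : ForSmall Q := by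
  obtain ⟨Δ, hΔ, h'⟩ := hP
  exact ⟨Δ, hΔ, fun g hg => h g (h' g hg)⟩

lemma ForSmall.mp (hP : ForSmall P) (h : ForSmall fun g => P g → Q g) : ForSmall Q :=
  (hP.and h).mono fun _ hg => hg.2 hg.1

lemma ForSmall.of_all (h : ∀ g, P g) : ForSmall P := ⟨⊤, inferInstance, fun g _ => h g⟩

lemma ForSmall.mem {Δ : Subgroup Γ} (hΔ : Δ.FiniteIndex) : ForSmall fun g => g ∈ Δ :=
  ⟨Δ, hΔ, fun _ hg => hg⟩

lemma ForSmall.all {ι : Type*} [Finite ι] {P : ι → Γ → Prop} (h : ∀ i, ForSmall (P i)) :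
    ForSmall fun g => ∀ i, P i g := by
  choose Δ hΔ h' using h
  have : (⨅ i, Δ i).FiniteIndex := Subgroup.finiteIndex_iInf hΔ
  exact ⟨⨅ i, Δ i, this, fun g hg i => h' i g (Subgroup.mem_iInf.1 hg i)⟩

end Small

end Pool.Agent.NH34.Lin
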