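import Mathlib

/-!
# Semilinear homomorphisms of algebras: definitions
-/

namespace Pool.Agent.NH34.Lin

variable {K L A B : Type} [Field K] [Field L] [Ring A] [Algebra K A] [Ring B] [Algebra L B]

/-- The homomorphism `f` of rings is semilinear, with respect to the homomorphism `σ` of the fields
of coefficients. -/
def IsSemilinear (σ : K →+* L) (f : A →+* B) : Prop := ∀ (r : K) (a : A), f (r • a) = σ r • f a

/-- `f` maps the member `gr i` of the first grading to the member `gr' i` of the second grading. -/
def PreservesGrading (f : A →+* B) (gr : ℕ → Submodule K A) (gr' : ℕ → Submodule L B) : Prop :=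
  ∀ i, ∀ a ∈ gr i, f a ∈ gr' i

/-- `f` maps the linear form `t` to the linear form `t'`. -/
def PreservesForm (σ : K →+* L) (f : A →+* B) (t : A →ₗ[K] K) (t' : B →ₗ[L] L) : Prop :=
  ∀ a, t' (f a) = σ (t a)

/-- The image of `f` spans the target. -/
def Generates (L : Type) {A B : Type} [Field L] [Ring A] [Ring B] [Algebra L B] (f : A →+* B) :
    Prop :=
  Submodule.span L (Set.range f) = ⊤

/-- All these conditions: `f` is semilinear, compatible with the gradings and with the linear forms,
and its image spans the target. -/
structure IsComparison (σ : K →+* L) (f : A →+* B) (gr : ℕ → Submodule K A)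
    (gr' : ℕ → Submodule L B) (t : A →ₗ[K] K) (t' : B →ₗ[L] L) : Prop where
  semi : IsSemilinear σ f
  grading : PreservesGrading f gr gr'
  form : PreservesForm σ f t t'
  gen : Generates L f

/-- The homomorphisms `f` and `g` commute with the homomorphisms `u` and `u'`. -/
def Intertwines {A' B' : Type} [Ring A'] [Algebra K A'] [Ring B'] [Algebra L B'] (f : A →+* B)
    (g : A' →+* B') (u : A' →ₐ[K] A) (u' : B' →ₐ[L] B) : Prop :=
  ∀ a, f (u a) = u' (g a)

/-- The space of the linear combinations of the images of the elements with the property `P`. -/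
def spanImage (L : Type) {A B : Type} [Field L] [Ring A] [Ring B] [Algebra L B] (f : A →+* B)
    (P : A → Prop) : Submodule L B :=
  Submodule.span L {b | ∃ a, P a ∧ f a = b}

end Pool.Agent.NH34.Lin
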