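import Pool.Agent.NH34.Lin.Defs

/-!
# Continuous actions: definitions
-/

universe v w

namespace Pool.Agent.NH34.Lin

/-- The action `ρ` of the open subgroup `D` of `Γ` is continuous, with respect to the topology of the
field of coefficients which is given by the isomorphism `e` with `ℚ_ℓ`: the matrix coefficients are
continuous functions. -/
structure IsContinuousRep {K : Type v} [Field K] {A : Type v} [Ring A] [Algebra K A] {ℓ : ℕ}
    [Fact ℓ.Prime] (e : K ≃+* ℚ_[ℓ]) {Γ : Type w} [Group Γ] [TopologicalSpace Γ] {D : Subgroup Γ}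
    (ρ : AutRep K A D) : Prop where
  isOpen : IsOpen (D : Set Γ)
  continuous : ∀ (φ : Module.Dual K A) (x : A), Continuous fun g : D => e (φ (ρ g x))

/-- The character `χ` is continuous. -/
def IsContinuousChar {K : Type v} [Field K] {ℓ : ℕ} [Fact ℓ.Prime] (e : K ≃+* ℚ_[ℓ]) {Γ : Type w}
    [Group Γ] [TopologicalSpace Γ] (χ : Γ →* Kˣ) : Prop := Continuous fun g => e (χ g)

end Pool.Agent.NH34.Lin
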