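import Mathlib

/-!
# Hodge decompositions of algebras: definitions
-/

open TensorProduct

namespace Pool.Agent.NH34.Lin

variable {K A B : Type} [Field K] [Ring A] [Algebra K A] [Ring B] [Algebra K B]

/-- The element `w` has the hard Lefschetz property for the grading `gr`, in dimension `n`: for all
`i ≤ n` the multiplication by `w ^ (n - i)` is a bijection of `gr i` and `gr (2 n - i)`. -/
def IsLefschetz (gr : ℕ → Submodule K A) (n : ℕ) (w : A) : Prop :=
  ∀ i ≤ n, (∀ a ∈ gr i, w ^ (n - i) * a = 0 → a = 0) ∧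
    ∀ b ∈ gr (2 * n - i), ∃ a ∈ gr i, w ^ (n - i) * a = b

variable [Algebra K ℂ]

/-- The families of subspaces of the algebra `A` with coefficients extended to the complex numbers,
with two integral indices. -/
abbrev Bigrading (K A : Type) [Field K] [Algebra K ℂ] [Ring A] [Algebra K A] : Type :=
  ℤ → ℤ → Submodule ℂ (ℂ ⊗[K] A)

/-- The element `c` is a Hodge class of degree `2 j`: it is in `gr (2 j)` and of type `(j, j)`. -/
def IsHodgeIn (gr : ℕ → Submodule K A) (pq : Bigrading K A) (j : ℕ) (c : A) : Prop :=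
  c ∈ gr (2 * j) ∧ (1 : ℂ) ⊗ₜ[K] c ∈ pq j j

/-- The space `gr i` with complex coefficients is the direct sum of the spaces `pq p q` with
`p + q = i`, and the types are additive for products. -/
structure IsDecomposition (gr : ℕ → Submodule K A) (pq : Bigrading K A) : Prop where
  span : ∀ i : ℕ, (gr i).baseChange ℂ = ⨆ r : {r : ℤ × ℤ // r.1 + r.2 = i}, pq r.1.1 r.1.2
  indep : iSupIndep fun r : ℤ × ℤ => pq r.1 r.2
  mul : ∀ (p q r s : ℤ) (a b : ℂ ⊗[K] A), a ∈ pq p q → b ∈ pq r s →
    a * b ∈ pq (p + r) (q + s)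

/-- The linear map `f` sends elements of type `(p, q)` to elements of type `(p + d, q + d)`. -/
def ShiftsTypes (f : A →ₗ[K] B) (pq : Bigrading K A) (pq' : Bigrading K B) (d : ℤ) : Prop :=
  ∀ (p q : ℤ) (a : ℂ ⊗[K] A), a ∈ pq p q → f.baseChange ℂ a ∈ pq' (p + d) (q + d)

/-- The Hodge-Riemann relations for the Hodge classes, with respect to the element `w`, the linear
form `t` and the dimension `n`: if the Hodge class `x` of degree `2 j` is primitive and not zero, then
`(-1) ^ j t(w ^ (n - 2 j) x x)` is a positive rational number. -/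
def IsPositive (gr : ℕ → Submodule K A) (pq : Bigrading K A) (t : A →ₗ[K] K) (n : ℕ) (w : A) :
    Prop :=
  ∀ (j : ℕ) (x : A), 2 * j ≤ n → IsHodgeIn gr pq j x → w ^ (n - 2 * j + 1) * x = 0 → x ≠ 0 →
    ∃ r : ℚ, 0 < r ∧ (-1) ^ j * t (w ^ (n - 2 * j) * x * x) = (r : K)

end Pool.Agent.NH34.Lin
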