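import Mathlib

/-!
# Properties of the elements of algebras: definitions
-/

namespace Pool.Agent.NH34.Lin

variable {K A B : Type} [Field K] [Ring A] [Algebra K A] [Ring B] [Algebra K B]

/-- The elements with the property `P` form a subspace. -/
def IsSubspace (K : Type) {A : Type} [Field K] [Ring A] [Algebra K A] (P : A → Prop) : Prop :=
  ∃ U : Submodule K A, ∀ c, c ∈ U ↔ P c

/-- The linear map `f` sends the elements with the property `P` to elements with the property
`Q`. -/
def Sends (f : A →ₗ[K] B) (P : A → Prop) (Q : B → Prop) : Prop := ∀ a, P a → Q (f a)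

/-- The product of elements with the properties `P i` and `P j` has the property `P (i + j)`. -/
def IsMultiplicative (P : ℕ → A → Prop) : Prop := ∀ i j a b, P i a → P j b → P (i + j) (a * b)

/-- The element `x` of `gr (2 j)` has the property `P j` if `w ^ (n - 2 j) x` has the property
`P (n - j)`. -/
def IsLifted (gr : ℕ → Submodule K A) (n : ℕ) (w : A) (P : ℕ → A → Prop) : Prop :=
  ∀ j, 2 * j ≤ n → ∀ x ∈ gr (2 * j), P (n - j) (w ^ (n - 2 * j) * x) → P j x

end Pool.Agent.NH34.Lin
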