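import Mathlib

/-!
# Actions of groups by automorphisms of algebras: definitions
-/

open Polynomial NumberField

universe u v w

namespace Pool.Agent.NH34.Lin

section Small

variable {Γ : Type w} [Group Γ]

/-- The property `P g` holds for all elements `g` of a subgroup of finite index. -/
def ForSmall (P : Γ → Prop) : Prop := ∃ Δ : Subgroup Γ, Δ.FiniteIndex ∧ ∀ g ∈ Δ, P g

end Small

variable {K : Type u} [Field K] {A B : Type v} [Ring A] [Algebra K A] [Ring B] [Algebra K B]
  {Γ : Type w} [Group Γ]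

/-- The actions of the subgroup `D` of `Γ` by automorphisms of the `K`-algebra `A`. -/
abbrev AutRep (K : Type u) [Field K] (A : Type v) [Ring A] [Algebra K A] {Γ : Type w} [Group Γ]
    (D : Subgroup Γ) : Type (max v w) := D →* (A ≃ₐ[K] A)

/-- The subspace `U` is stable under the action `ρ`. -/
def StableUnder {D : Subgroup Γ} (ρ : AutRep K A D) (U : Submodule K A) : Prop :=
  ∀ g : D, ∀ x ∈ U, ρ g x ∈ U

/-- All members of the family `gr` of subspaces are stable under the action `ρ`. -/
def RespectsGrading {D : Subgroup Γ} (ρ : AutRep K A D) (gr : ℕ → Submodule K A) : Prop :=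
  ∀ (g : D) (i : ℕ), ∀ x ∈ gr i, ρ g x ∈ gr i

/-- The linear form `t` is multiplied by `χ g ^ n` by all `g` in `D`. -/
def TwistsForm (χ : Γ →* Kˣ) {D : Subgroup Γ} (ρ : AutRep K A D) (n : ℕ) (t : A →ₗ[K] K) : Prop :=
  ∀ (g : D) (a : A), t (ρ g a) = (χ g : K) ^ n * t a

/-- The homomorphism `f` commutes with the elements of a subgroup of finite index. -/
def AlmostEquivariant {D E : Subgroup Γ} (ρ : AutRep K A D) (σ : AutRep K B E) (f : B →ₐ[K] A) :
    Prop :=
  ForSmall fun g => ∀ (h : g ∈ D) (h' : g ∈ E) (b : B), ρ ⟨g, h⟩ (f b) = f (σ ⟨g, h'⟩ b)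

/-- `c` is multiplied by `χ g ^ j` by all `g` in a subgroup of finite index. -/
def AlmostTwisted (χ : Γ →* Kˣ) {D : Subgroup Γ} (ρ : AutRep K A D) (j : ℕ) (c : A) : Prop :=
  ForSmall fun g => ∀ h : g ∈ D, ρ ⟨g, h⟩ c = (χ g : K) ^ j • c

/-- The Tate classes of codimension `j`: the elements `c` of `gr (2 j)` which are multiplied by
`χ g ^ j` by all `g` in a subgroup of finite index. -/
def TateIn (χ : Γ →* Kˣ) {D : Subgroup Γ} (ρ : AutRep K A D) (gr : ℕ → Submodule K A) (j : ℕ)
    (c : A) : Prop :=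
  c ∈ gr (2 * j) ∧ AlmostTwisted χ ρ j c

/-- The space spanned by the Tate classes of all codimensions. -/
def tateSpan (χ : Γ →* Kˣ) {D : Subgroup Γ} (ρ : AutRep K A D) (gr : ℕ → Submodule K A) :
    Submodule K A :=
  Submodule.span K {c | ∃ j, TateIn χ ρ gr j c}

/-- The restriction of the action `ρ` to the stable subspace `M` is semisimple: every stable subspace
`U` of `M` has a stable complement `U'` in `M`. -/
def SemisimpleOn {D : Subgroup Γ} (ρ : AutRep K A D) (M : Submodule K A) : Prop :=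
  ∀ U ≤ M, StableUnder ρ U → ∃ U' ≤ M, StableUnder ρ U' ∧ U ⊓ U' = ⊥ ∧ U ⊔ U' = M

/-- The characteristic polynomial of the restriction of the automorphism `σ` to the subspace `U` is
`P`. -/
def HasCharpolyOn [Module.Finite K A] (σ : A ≃ₐ[K] A) (U : Submodule K A) (P : ℤ[X]) : Prop :=
  ∀ h : ∀ x ∈ U, σ.toLinearMap x ∈ U,
    (σ.toLinearMap.restrict h).charpoly = P.map (algebraMap ℤ K)

/-- The elements `c` of the subspace `T` with `t (c * d) = 0` for all `d` in `T`. -/
def nullOf (t : A →ₗ[K] K) (T : Submodule K A) : Submodule K A where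
  carrier := {c | c ∈ T ∧ ∀ d ∈ T, t (c * d) = 0}
  add_mem' := by
    rintro a b ⟨ha, ha'⟩ ⟨hb, hb'⟩
    exact ⟨Submodule.add_mem _ ha hb, fun d hd => by
      rw [add_mul, map_add, ha' d hd, hb' d hd, add_zero]⟩
  zero_mem' := ⟨Submodule.zero_mem _, fun d _ => by rw [zero_mul, map_zero]⟩
  smul_mem' := by
    rintro r a ⟨ha, ha'⟩
    exact ⟨Submodule.smul_mem _ _ ha, fun d hd => by
      rw [smul_mul_assoc, map_smul, ha' d hd, smul_zero]⟩

/-- The dimension of the subspace `T`. -/
noncomputable def dimOf (T : Submodule K A) : ℕ := Module.finrank K T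

/-- The rank of the bilinear form `t (c * d)` on the subspace `T`. -/
noncomputable def rankOn (t : A →ₗ[K] K) (T : Submodule K A) : ℕ := dimOf T - dimOf (nullOf t T)

/-- The bilinear form `t (c * d)` on the subspace `T` is nondegenerate. -/
def NondegOn (t : A →ₗ[K] K) (T : Submodule K A) : Prop := nullOf t T = ⊥

end Pool.Agent.NH34.Lin
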