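import Pool.Agent.NH34.Lin.Defs

/-!
# Representations of the absolute Galois group of the rational numbers: definitions
-/

open Polynomial NumberField

universe v

namespace Pool.Agent.NH34.Lin

/-- The absolute Galois group of the rational numbers, with the profinite (Krull) topology. -/
abbrev GQ : Type := Gal(AlgebraicClosure ℚ/ℚ)

/-- `σ` is a Frobenius element at the prime number `q`: there is a maximal ideal `Q` above `q` of the
ring of all algebraic integers with `σ x ≡ x ^ q` modulo `Q` for all `x`. -/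
def IsFrobenius (q : ℕ) (σ : GQ) : Prop :=
  ∃ Q : Ideal (𝓞 (AlgebraicClosure ℚ)), Q.IsMaximal ∧ (q : 𝓞 (AlgebraicClosure ℚ)) ∈ Q ∧
    ∀ x : 𝓞 (AlgebraicClosure ℚ), σ • x - x ^ q ∈ Q

/-- The properties of the action `ρ` of the absolute Galois group of `ℚ` on the `ℓ`-adic cohomology
algebra `A` of a smooth projective variety over the rational numbers, with the grading `gr` (`e`
identifies the field of coefficients with `ℚ_ℓ`, and `χ` is the action on the Tate twists): it is
continuous, and outside of the finite set `S` (of the prime number `ℓ` and of the prime numbers of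
bad reduction) the inverse of a Frobenius element at `q` acts on the Tate twists by `q` and on
`gr i` with a characteristic polynomial `P i q` with integral coefficients, whose complex roots have
absolute value `q ^ (i / 2)`. -/
structure IsPureRep {K : Type v} [Field K] {A : Type v} [Ring A] [Algebra K A] [Module.Finite K A]
    {ℓ : ℕ} [Fact ℓ.Prime] (e : K ≃+* ℚ_[ℓ]) (χ : GQ →* Kˣ) {D : Subgroup GQ} (ρ : AutRep K A D)
    (gr : ℕ → Submodule K A) (S : Finset ℕ) (P : ℕ → ℕ → ℤ[X]) : Prop where
  all : ∀ g, g ∈ D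
  continuous : ∀ (φ : Module.Dual K A) (x : A), Continuous fun g => e (φ (ρ ⟨g, all g⟩ x))
  cyclotomic : Continuous fun g => e (χ g)
  twist : ∀ q, q.Prime → q ∉ S → ∀ σ, IsFrobenius q σ → (χ σ⁻¹ : K) = q
  monic : ∀ i q, q.Prime → q ∉ S → (P i q).Monic
  weight : ∀ i q, q.Prime → q ∉ S → ∀ z : ℂ, aeval z (P i q) = 0 → ‖z‖ ^ 2 = (q : ℝ) ^ i
  charpoly : ∀ i q, q.Prime → q ∉ S → ∀ σ, IsFrobenius q σ →
    HasCharpolyOn (ρ ⟨σ⁻¹, all σ⁻¹⟩) (gr i) (P i q)

end Pool.Agent.NH34.Lin
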