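import Pool.Agent.NH34.Lin.Defs
import Pool.Agent.NH34.Lin.HomDefs

/-!
# The number of elements with a property: definitions
-/

namespace Pool.Agent.NH34.Lin

universe u v

section Count

variable {K : Type u} {A : Type v} [Field K] [Ring A] [Algebra K A]

/-- The space spanned by the elements `c` with one of the properties `P j`. -/
def spanOf (K : Type u) {A : Type v} [Field K] [Ring A] [Algebra K A] (P : ℕ → A → Prop) :
    Submodule K A :=
  Submodule.span K {c | ∃ j, P j c}

/-- The number of linearly independent elements with one of the properties `P j`. -/
noncomputable def numOf (K : Type u) {A : Type v} [Field K] [Ring A] [Algebra K A]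
    (P : ℕ → A → Prop) : ℕ :=
  dimOf (spanOf K P)

/-- The rank of the bilinear form `t (c * d)` on the space spanned by the elements with one of the
properties `P j`. -/
noncomputable def rankBy (t : A →ₗ[K] K) (P : ℕ → A → Prop) : ℕ := rankOn t (spanOf K P)

/-- The bilinear form `t (c * d)` is nondegenerate on the space spanned by the elements with one of
the properties `P j`. -/
def NondegBy (t : A →ₗ[K] K) (P : ℕ → A → Prop) : Prop := NondegOn t (spanOf K P)

/-- The numbers `r n` are negligible in comparison with the numbers `t n`. -/
def Negligible (r t : ℕ → ℕ) : Prop := ∀ N : ℕ, ∃ n₀ : ℕ, ∀ n ≥ n₀, N * r n ≤ t n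

end Count

section Pair

variable {K L A B : Type} [Field K] [Field L] [Ring A] [Algebra K A] [Ring B] [Algebra L B]

/-- `b` is a linear combination of images of elements with the property `P`. -/
def IsComb (L : Type) {A B : Type} [Field L] [Ring A] [Ring B] [Algebra L B] (f : A →+* B)
    (P : A → Prop) (b : B) : Prop :=
  b ∈ spanImage L f P

/-- The images of the elements with the property `P j` have the property `Q j`. -/
def SendsAll (f : A →+* B) (P : ℕ → A → Prop) (Q : ℕ → B → Prop) : Prop :=
  ∀ j a, P j a → Q j (f a)

/-- The elements with the property `Q j` are linear combinations of images of elements with the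
property `P j`. -/
def AllCombs (L : Type) {A B : Type} [Field L] [Ring A] [Ring B] [Algebra L B] (f : A →+* B)
    (P : ℕ → A → Prop) (Q : ℕ → B → Prop) : Prop :=
  ∀ j b, Q j b → IsComb L f (P j) b

end Pair

end Pool.Agent.NH34.Lin
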