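import Pool.Agent.NH34.Lin.Defs

/-!
# Restriction of actions along homomorphisms: definitions
-/

universe u v w w'

namespace Pool.Agent.NH34.Lin

variable {K : Type u} [Field K] {A : Type v} [Ring A] [Algebra K A]
  {Γ : Type w} [Group Γ] {Γ' : Type w'} [Group Γ']

/-- The restriction of the action `ρ` along the homomorphism `φ`. -/
def restrictRep {D : Subgroup Γ} (φ : Γ' →* Γ) (ρ : AutRep K A D) : AutRep K A (D.comap φ) :=
  ρ.comp (φ.subgroupComap D)

/-- A subgroup of finite index acts through a commutative group. -/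
def AlmostCommutative {D : Subgroup Γ} (ρ : AutRep K A D) : Prop :=
  ∃ Δ : Subgroup Γ, Δ.FiniteIndex ∧ ∀ g h : D, (g : Γ) ∈ Δ → (h : Γ) ∈ Δ →
    ∀ a, ρ g (ρ h a) = ρ h (ρ g a)

end Pool.Agent.NH34.Lin
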